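import Pool.Agent.H56.CF.Targets

/-!
MP_347b49_nt, board cfm_modules, row RSAN: the number of ideals of norm `n` on average over the
discriminant.
-/

set_option autoImplicit false

open NumberField Module
open scoped nonZeroDivisors

namespace Pool.Agent.H42.CF

open Pool.Agent.H28.RC Pool.Agent.H91.CF Pool.Agent.H24.Cls Pool.Agent.H31.CN Pool.Agent.H56.CF

theorem pf_SAN (hA : T_AKN) (hR : T_RTS) : T_SAN := by
  intro K _ _ S Y n hF hY hn hnY
  have h1 : ∑ d ∈ S, (aK (K d) n : ℝ) ≤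
      ∑ d ∈ S, ∑ e ∈ (Finset.Icc 1 n).filter (fun e => e ^ 2 ∣ n), (rts (n / e ^ 2) d : ℝ) := by
    refine Finset.sum_le_sum fun d hd => ?_
    obtain ⟨h2, h3, -⟩ := hF d hd
    have h4 := hA (K d) h2 n hn
    rw [h3] at h4
    exact_mod_cast h4
  refine h1.trans ?_
  rw [Finset.sum_comm]
  have h2 : ∀ e ∈ (Finset.Icc 1 n).filter (fun e => e ^ 2 ∣ n),
      ∑ d ∈ S, (rts (n / e ^ 2) d : ℝ) ≤ 5 * Y := by
    intro e he
    rw [Finset.mem_filter, Finset.mem_Icc] at he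
    obtain ⟨⟨he1, -⟩, he2⟩ := he
    have h3 : 1 ≤ n / e ^ 2 := Nat.div_pos (Nat.le_of_dvd hn he2) (by positivity)
    have h4 := hR (n / e ^ 2) Y S h3 (by linarith) (fun d hd => (hF d hd).2.2)
    have h5 : ((n / e ^ 2 : ℕ) : ℝ) ≤ n := by exact_mod_cast Nat.div_le_self _ _
    have h6 : √Y ≤ Y := by
      rw [Real.sqrt_le_left (by linarith)]
      nlinarith
    linarith
  refine (Finset.sum_le_sum h2).trans ?_
  rw [Finset.sum_const, nsmul_eq_mul]
  unfold sqd
  rw [mul_comm]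

end Pool.Agent.H42.CF
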