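import Mathlib
import Pool.Agent.H5.CF.Targets

set_option autoImplicit false

/-!
# The lamplighter group is co-context-free: M4a, M4b, M4c
-/

namespace Pool.Agent.H42.CF

open Pool.Agent.H5.CF

/-! ## displacement, minimum and maximum -/

/-- displacement of a letter -/
def dl (x : Fin 3) : ℤ := if x = 0 then 1 else if x = 1 then -1 else 0

/-- minimal displacement of a prefix -/
def mn : List (Fin 3) → ℤ
  | [] => 0
  | x :: w => min 0 (dl x + mn w)

/-- maximal displacement of a prefix -/
def mx : List (Fin 3) → ℤ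
  | [] => 0
  | x :: w => max 0 (dl x + mx w)

@[simp] theorem disp_nil : disp [] = 0 := rfl
theorem disp_cons (x : Fin 3) (w : List (Fin 3)) : disp (x :: w) = dl x + disp w := rfl
@[simp] theorem mn_nil : mn [] = 0 := rfl
theorem mn_cons (x : Fin 3) (w : List (Fin 3)) : mn (x :: w) = min 0 (dl x + mn w) := rfl
@[simp] theorem mx_nil : mx [] = 0 := rfl
theorem mx_cons (x : Fin 3) (w : List (Fin 3)) : mx (x :: w) = max 0 (dl x + mx w) := rfl
@[simp] theorem dl0 : dl 0 = 1 := rfl
@[simp] theorem dl1 : dl 1 = -1 := rfl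
@[simp] theorem dl2 : dl 2 = 0 := rfl

theorem disp_append (u v : List (Fin 3)) : disp (u ++ v) = disp u + disp v := by
  induction u with
  | nil => simp
  | cons x u ih => rw [List.cons_append, disp_cons, disp_cons, ih, add_assoc]

theorem disp_reverse (u : List (Fin 3)) : disp u.reverse = disp u := by
  induction u with
  | nil => rfl
  | cons x u ih =>
    rw [List.reverse_cons, disp_append, ih, disp_cons, disp_cons, disp_nil]
    ring

theorem mn_le (u : List (Fin 3)) : mn u ≤ 0 := by
  cases u with
  | nil => exact le_rfl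
  | cons x u => exact min_le_left _ _

theorem mx_ge (u : List (Fin 3)) : 0 ≤ mx u := by
  cases u with
  | nil => exact le_rfl
  | cons x u => exact le_max_left _ _

theorem mn_le_disp (u : List (Fin 3)) : mn u ≤ disp u := by
  induction u with
  | nil => exact le_rfl
  | cons x u ih =>
    rw [mn_cons, disp_cons]
    exact (min_le_right _ _).trans (by linarith)

theorem disp_le_mx (u : List (Fin 3)) : disp u ≤ mx u := by
  induction u with
  | nil => exact le_rfl
  | cons x u ih =>
    rw [mx_cons, disp_cons]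
    exact le_trans (by linarith) (le_max_right _ _)

theorem mn_append (u v : List (Fin 3)) : mn (u ++ v) = min (mn u) (disp u + mn v) := by
  induction u with
  | nil =>
    have := mn_le v
    simp [this]
  | cons x u ih =>
    rw [List.cons_append, mn_cons, ih, mn_cons, disp_cons]
    omega

theorem mx_append (u v : List (Fin 3)) : mx (u ++ v) = max (mx u) (disp u + mx v) := by
  induction u with
  | nil =>
    have := mx_ge v
    simp [this]
  | cons x u ih =>
    rw [List.cons_append, mx_cons, ih, mx_cons, disp_cons]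
    omega

theorem mx_reverse (u : List (Fin 3)) : mx u.reverse = disp u - mn u := by
  induction u with
  | nil => rfl
  | cons x u ih =>
    rw [List.reverse_cons, mx_append, ih, disp_reverse, mx_cons, mx_nil, disp_cons, mn_cons]
    have := mn_le u
    omega

theorem mn_reverse (u : List (Fin 3)) : mn u.reverse = disp u - mx u := by
  induction u with
  | nil => rfl
  | cons x u ih =>
    rw [List.reverse_cons, mn_append, ih, disp_reverse, mn_cons, mn_nil, disp_cons, mx_cons]
    have := mx_ge u
    omega

theorem prefix_ge (w : List (Fin 3)) (k : ℤ) : (∀ u, u <+: w → k ≤ disp u) ↔ k ≤ mn w := by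
  induction w generalizing k with
  | nil =>
    constructor
    · intro h
      exact h [] List.prefix_rfl
    · intro h u hu
      rw [List.prefix_nil.1 hu]
      exact h
  | cons x w ih =>
    rw [mn_cons]
    constructor
    · intro h
      refine le_min (h [] (List.nil_prefix)) ?_
      have := (ih (k - dl x)).1 fun u hu => by
        have := h (x :: u) ((List.prefix_cons_inj x).2 hu)
        rw [disp_cons] at this
        linarith
      linarith
    · intro h u hu
      rcases List.prefix_cons_iff.1 hu with h0 | ⟨t, ht, htw⟩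
      · rw [h0]
        exact h.trans (min_le_left _ _)
      · rw [ht, disp_cons]
        have := (ih (k - dl x)).2 (by linarith [h.trans (min_le_right _ _)]) t htw
        linarith

theorem prefix_le (w : List (Fin 3)) (k : ℤ) : (∀ u, u <+: w → disp u ≤ k) ↔ mx w ≤ k := by
  induction w generalizing k with
  | nil =>
    constructor
    · intro h
      exact h [] List.prefix_rfl
    · intro h u hu
      rw [List.prefix_nil.1 hu]
      exact h
  | cons x w ih =>
    rw [mx_cons]
    constructor
    · intro h
      refine max_le (h [] (List.nil_prefix)) ?_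
      have := (ih (k - dl x)).1 fun u hu => by
        have := h (x :: u) ((List.prefix_cons_inj x).2 hu)
        rw [disp_cons] at this
        linarith
      linarith
    · intro h u hu
      rcases List.prefix_cons_iff.1 hu with h0 | ⟨t, ht, htw⟩
      · rw [h0]
        exact (le_max_left _ _).trans h
      · rw [ht, disp_cons]
        have := (ih (k - dl x)).2 (by linarith [(le_max_right _ _).trans h]) t htw
        linarith

/-! ## lamps -/

@[simp] theorem cnt_nil (z : ℤ) : cnt [] z = 0 := rfl
@[simp] theorem cnt_cons0 (w : List (Fin 3)) (z : ℤ) : cnt (0 :: w) z = cnt w (z - 1) := rfl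
@[simp] theorem cnt_cons1 (w : List (Fin 3)) (z : ℤ) : cnt (1 :: w) z = cnt w (z + 1) := rfl
theorem cnt_cons2 (w : List (Fin 3)) (z : ℤ) :
    cnt (2 :: w) z = (if z = 0 then 1 else 0) + cnt w z := rfl

theorem fin3_cases {P : Fin 3 → Prop} (h0 : P 0) (h1 : P 1) (h2 : P 2) (x : Fin 3) : P x := by
  fin_cases x
  · exact h0
  · exact h1
  · exact h2

theorem cnt_append (u v : List (Fin 3)) (z : ℤ) :
    cnt (u ++ v) z = cnt u z + cnt v (z - disp u) := by
  induction u generalizing z with
  | nil => simp
  | cons x u ih =>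
    revert x
    refine fin3_cases ?_ ?_ ?_
    · rw [List.cons_append, cnt_cons0, cnt_cons0, ih, disp_cons, dl0]
      congr 2
      ring
    · rw [List.cons_append, cnt_cons1, cnt_cons1, ih, disp_cons, dl1]
      congr 2
      ring
    · rw [List.cons_append, cnt_cons2, cnt_cons2, ih, disp_cons, dl2, zero_add, add_assoc]

theorem cnt_lt (w : List (Fin 3)) (z : ℤ) (h : z < mn w) : cnt w z = 0 := by
  induction w generalizing z with
  | nil => rfl
  | cons x w ih =>
    revert x
    refine fin3_cases ?_ ?_ ?_
    · intro h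
      rw [mn_cons, dl0] at h
      rw [cnt_cons0]
      exact ih _ (by omega)
    · intro h
      rw [mn_cons, dl1] at h
      rw [cnt_cons1]
      exact ih _ (by omega)
    · intro h
      rw [mn_cons, dl2] at h
      rw [cnt_cons2, if_neg (by omega), ih _ (by omega), add_zero]

theorem cnt_gt (w : List (Fin 3)) (z : ℤ) (h : mx w < z) : cnt w z = 0 := by
  induction w generalizing z with
  | nil => rfl
  | cons x w ih =>
    revert x
    refine fin3_cases ?_ ?_ ?_
    · intro h
      rw [mx_cons, dl0] at h
      rw [cnt_cons0]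
      exact ih _ (by omega)
    · intro h
      rw [mx_cons, dl1] at h
      rw [cnt_cons1]
      exact ih _ (by omega)
    · intro h
      rw [mx_cons, dl2] at h
      rw [cnt_cons2, if_neg (by omega), ih _ (by omega), add_zero]

/-! ## soundness -/

/-- semantics of a string of symbols -/
def semL : List (Symbol (Fin 3) NTL) → List (Fin 3) → Prop
  | [], w => w = []
  | Symbol.terminal x :: β, w => ∃ v, w = x :: v ∧ semL β v
  | Symbol.nonterminal A :: β, w => ∃ u v, w = u ++ v ∧ sem A u ∧ semL β v

theorem sem_Bp (w : List (Fin 3)) : sem .Bp w ↔ disp w = 0 ∧ 0 ≤ mn w := by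
  rw [← prefix_ge]
  rfl

theorem sem_Bm (w : List (Fin 3)) : sem .Bm w ↔ disp w = 0 ∧ mx w ≤ 0 := by
  rw [← prefix_le]
  rfl

theorem zmod2 (x : ZMod 2) : x ≠ 0 ↔ x = 1 := by
  revert x
  decide

theorem rule_sound (r : ContextFreeRule (Fin 3) NTL) (hr : r ∈ rulesL) (w : List (Fin 3))
    (h : semL r.output w) : sem r.input w := by
  simp only [rulesL, List.mem_cons, List.not_mem_nil, or_false] at hr
  rcases hr with rfl | rfl | rfl | rfl | rfl | rfl | rfl | rfl | rfl | rfl | rfl | rfl | rfl |
    rfl | rfl | rfl | rfl | rfl | rfl | rfl | rfl | rfl | rfl | rfl | rfl | rfl | rfl | rfl | rfl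
  -- S
  · obtain ⟨u, v, rfl, hu, rfl⟩ := h
    rw [List.append_nil]
    exact Or.inl (ne_of_gt hu)
  · obtain ⟨u, v, rfl, hu, rfl⟩ := h
    rw [List.append_nil]
    exact Or.inl (ne_of_lt hu)
  · obtain ⟨u, v, rfl, hu, rfl⟩ := h
    rw [List.append_nil]
    obtain ⟨_, z, _, hz⟩ := hu
    exact Or.inr ⟨z, hz⟩
  · obtain ⟨u, v, rfl, hu, rfl⟩ := h
    rw [List.append_nil]
    obtain ⟨_, z, _, hz⟩ := hu
    exact Or.inr ⟨z, hz⟩
  -- E
  · have : w = [] := h
    rw [this]
    rfl
  · obtain ⟨v, rfl, u, v', rfl, hu, rfl⟩ := h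
    have hu' : disp u = 0 := hu
    change disp _ = 0
    rw [List.append_nil, disp_cons, hu', dl2, zero_add]
  · obtain ⟨v, rfl, u, v', rfl, hu, v2, rfl, u2, v3, rfl, hu2, rfl⟩ := h
    have hu' : disp u = 0 := hu
    have hu2' : disp u2 = 0 := hu2
    change disp _ = 0
    simp only [List.append_nil, disp_cons, disp_append, hu', hu2', dl0, dl1]
    norm_num
  · obtain ⟨v, rfl, u, v', rfl, hu, v2, rfl, u2, v3, rfl, hu2, rfl⟩ := h
    have hu' : disp u = 0 := hu
    have hu2' : disp u2 = 0 := hu2
    change disp _ = 0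
    simp only [List.append_nil, disp_cons, disp_append, hu', hu2', dl0, dl1]
    norm_num
  -- P
  · obtain ⟨u, v, rfl, hu, v2, rfl, u2, v3, rfl, hu2, rfl⟩ := h
    have hu' : disp u = 0 := hu
    have hu2' : disp u2 = 0 := hu2
    change 0 < disp _
    simp only [List.append_nil, disp_cons, disp_append, hu', hu2', dl0]
    norm_num
  · obtain ⟨u, v, rfl, hu, v2, rfl, u2, v3, rfl, hu2, rfl⟩ := h
    have hu' : disp u = 0 := hu
    have hu2' : 0 < disp u2 := hu2
    change 0 < disp _
    simp only [List.append_nil, disp_cons, disp_append, hu', dl0]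
    linarith
  -- M
  · obtain ⟨u, v, rfl, hu, v2, rfl, u2, v3, rfl, hu2, rfl⟩ := h
    have hu' : disp u = 0 := hu
    have hu2' : disp u2 = 0 := hu2
    change disp _ < 0
    simp only [List.append_nil, disp_cons, disp_append, hu', hu2', dl1]
    norm_num
  · obtain ⟨u, v, rfl, hu, v2, rfl, u2, v3, rfl, hu2, rfl⟩ := h
    have hu' : disp u = 0 := hu
    have hu2' : disp u2 < 0 := hu2
    change disp _ < 0
    simp only [List.append_nil, disp_cons, disp_append, hu', dl1]
    linarith
  -- Bp
  · have : w = [] := h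
    rw [this, sem_Bp]
    simp
  · obtain ⟨v, rfl, u, v', rfl, hu, rfl⟩ := h
    rw [sem_Bp] at hu ⊢
    rw [List.append_nil, disp_cons, mn_cons, dl2]
    omega
  · obtain ⟨v, rfl, u, v', rfl, hu, v2, rfl, u2, v3, rfl, hu2, rfl⟩ := h
    rw [sem_Bp] at hu hu2 ⊢
    simp only [List.append_nil, disp_cons, disp_append, mn_cons, mn_append, dl0, dl1]
    omega
  -- Bm
  · have : w = [] := h
    rw [this, sem_Bm]
    simp
  · obtain ⟨v, rfl, u, v', rfl, hu, rfl⟩ := h
    rw [sem_Bm] at hu ⊢
    rw [List.append_nil, disp_cons, mx_cons, dl2]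
    omega
  · obtain ⟨v, rfl, u, v', rfl, hu, v2, rfl, u2, v3, rfl, hu2, rfl⟩ := h
    rw [sem_Bm] at hu hu2 ⊢
    simp only [List.append_nil, disp_cons, disp_append, mx_cons, mx_append, dl0, dl1]
    omega
  -- Ze
  · have : w = [] := h
    rw [this]
    exact ⟨rfl, rfl⟩
  · obtain ⟨v, rfl, u, v', rfl, hu, rfl⟩ := h
    obtain ⟨h1, h2⟩ := hu
    rw [zmod2] at h2
    refine ⟨?_, ?_⟩
    · rw [List.append_nil, disp_cons, h1, dl2, zero_add]
    · rw [List.append_nil, cnt_cons2, if_pos rfl, h2]
      rfl
  · obtain ⟨v, rfl, u, v', rfl, hu, v2, rfl, u2, v3, rfl, hu2, rfl⟩ := h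
    rw [sem_Bp] at hu
    obtain ⟨h1, h2⟩ := hu2
    refine ⟨?_, ?_⟩
    · simp only [List.append_nil, disp_cons, disp_append, hu.1, h1, dl0, dl1]
      norm_num
    · rw [List.append_nil, cnt_cons0, cnt_append, hu.1, cnt_lt u _ (by omega), cnt_cons1]
      simpa using h2
  · obtain ⟨v, rfl, u, v', rfl, hu, v2, rfl, u2, v3, rfl, hu2, rfl⟩ := h
    rw [sem_Bm] at hu
    obtain ⟨h1, h2⟩ := hu2
    refine ⟨?_, ?_⟩
    · simp only [List.append_nil, disp_cons, disp_append, hu.1, h1, dl0, dl1]
      norm_num
    · rw [List.append_nil, cnt_cons1, cnt_append, hu.1, cnt_gt u _ (by omega), cnt_cons0]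
      simpa using h2
  -- Zo
  · obtain ⟨v, rfl, u, v', rfl, hu, rfl⟩ := h
    obtain ⟨h1, h2⟩ := hu
    refine ⟨?_, ?_⟩
    · rw [List.append_nil, disp_cons, h1, dl2, zero_add]
    · rw [List.append_nil, cnt_cons2, if_pos rfl, h2]
      decide
  · obtain ⟨v, rfl, u, v', rfl, hu, v2, rfl, u2, v3, rfl, hu2, rfl⟩ := h
    rw [sem_Bp] at hu
    obtain ⟨h1, h2⟩ := hu2
    refine ⟨?_, ?_⟩
    · simp only [List.append_nil, disp_cons, disp_append, hu.1, h1, dl0, dl1]
      norm_num
    · rw [List.append_nil, cnt_cons0, cnt_append, hu.1, cnt_lt u _ (by omega), cnt_cons1]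
      simpa using h2
  · obtain ⟨v, rfl, u, v', rfl, hu, v2, rfl, u2, v3, rfl, hu2, rfl⟩ := h
    rw [sem_Bm] at hu
    obtain ⟨h1, h2⟩ := hu2
    refine ⟨?_, ?_⟩
    · simp only [List.append_nil, disp_cons, disp_append, hu.1, h1, dl0, dl1]
      norm_num
    · rw [List.append_nil, cnt_cons1, cnt_append, hu.1, cnt_gt u _ (by omega), cnt_cons0]
      simpa using h2
  -- Wp
  · obtain ⟨u, v, rfl, hu, rfl⟩ := h
    rw [List.append_nil]
    exact ⟨hu.1, 0, le_rfl, hu.2⟩
  · obtain ⟨u, v, rfl, hu, v2, rfl, u2, v3, rfl, hu2, v4, rfl, u5, v5, rfl, hu5, rfl⟩ := h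
    rw [sem_Bm] at hu hu5
    obtain ⟨h1, z, hz, h2⟩ := hu2
    refine ⟨?_, z + 1, by omega, ?_⟩
    · simp only [List.append_nil, disp_cons, disp_append, hu.1, h1, hu5.1, dl0, dl1]
      norm_num
    · rw [List.append_nil, cnt_append, hu.1, cnt_gt u _ (by omega), cnt_cons0, cnt_append, h1,
        cnt_cons1, cnt_gt u5 _ (by omega)]
      simpa using h2
  -- Wm
  · obtain ⟨u, v, rfl, hu, rfl⟩ := h
    rw [List.append_nil]
    exact ⟨hu.1, 0, le_rfl, hu.2⟩
  · obtain ⟨u, v, rfl, hu, v2, rfl, u2, v3, rfl, hu2, v4, rfl, u5, v5, rfl, hu5, rfl⟩ := h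
    rw [sem_Bp] at hu hu5
    obtain ⟨h1, z, hz, h2⟩ := hu2
    refine ⟨?_, z - 1, by omega, ?_⟩
    · simp only [List.append_nil, disp_cons, disp_append, hu.1, h1, hu5.1, dl0, dl1]
      norm_num
    · rw [List.append_nil, cnt_append, hu.1, cnt_lt u _ (by omega), cnt_cons1, cnt_append, h1,
        cnt_cons0, cnt_lt u5 _ (by omega)]
      simpa using h2

theorem sound (β : List (Symbol (Fin 3) gL.NT)) (w : List (Fin 3)) (h : Yd gL β w) :
    semL β w := by
  induction h with
  | nil => rfl
  | term x β w _ ih => exact ⟨w, rfl, ih⟩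
  | nonterm r β u w hr _ _ ih1 ih2 =>
    exact ⟨u, w, rfl, rule_sound r (List.mem_toFinset.1 hr) u ih1, ih2⟩

/-- **M4a** -/
theorem M4a_holds : TargetM4a := by
  intro A w h
  obtain ⟨u, v, rfl, hu, rfl⟩ := sound _ w h
  rwa [List.append_nil]

/-! ## completeness -/

theorem yd_append {β γ : List (Symbol (Fin 3) gL.NT)} {u v : List (Fin 3)} (h1 : Yd gL β u)
    (h2 : Yd gL γ v) : Yd gL (β ++ γ) (u ++ v) := by
  induction h1 with
  | nil => exact h2
  | term x β w _ ih =>
    rw [List.cons_append, List.cons_append]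
    exact Yd.term x _ _ ih
  | nonterm r β u w hr ha _ _ ih2 =>
    rw [List.cons_append, List.append_assoc]
    exact Yd.nonterm r _ u _ hr ha ih2

/-- the nonterminal `A` yields `w` -/
abbrev Y (A : NTL) (w : List (Fin 3)) : Prop := Yd gL [(Symbol.nonterminal A : Symbol (Fin 3) gL.NT)] w

theorem y_rule {A : NTL} {β : List (Symbol (Fin 3) NTL)} {w : List (Fin 3)}
    (hr : (⟨A, β⟩ : ContextFreeRule (Fin 3) NTL) ∈ rulesL) (h : Yd gL β w) : Y A w := by
  have hr' : (⟨A, β⟩ : ContextFreeRule (Fin 3) NTL) ∈ rulesL.toFinset := List.mem_toFinset.2 hr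
  have := Yd.nonterm (g := gL) ⟨A, β⟩ [] w [] hr' h Yd.nil
  rwa [List.append_nil] at this

theorem y_nt {A : NTL} {β : List (Symbol (Fin 3) NTL)} {u v : List (Fin 3)} (h1 : Y A u)
    (h2 : Yd gL β v) : Yd gL (Symbol.nonterminal A :: β) (u ++ v) :=
  yd_append h1 h2

theorem y_tm {x : Fin 3} {β : List (Symbol (Fin 3) NTL)} {v : List (Fin 3)}
    (h2 : Yd gL β v) : Yd gL (Symbol.terminal x :: β) (x :: v) :=
  Yd.term x _ _ h2

/-- first passage below `-k` -/
theorem fpd (w : List (Fin 3)) (k : ℤ) (hk : 0 ≤ k) (h : mn w < -k) :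
    ∃ u v, w = u ++ 1 :: v ∧ disp u = -k ∧ -k ≤ mn u := by
  induction w generalizing k with
  | nil =>
    rw [mn_nil] at h
    omega
  | cons x w ih =>
    revert x
    refine fin3_cases ?_ ?_ ?_
    · intro h
      rw [mn_cons, dl0] at h
      obtain ⟨u, v, rfl, h1, h2⟩ := ih (k + 1) (by omega) (by omega)
      refine ⟨0 :: u, v, rfl, ?_, ?_⟩
      · rw [disp_cons, dl0]
        omega
      · rw [mn_cons, dl0]
        omega
    · intro h
      rw [mn_cons, dl1] at h
      by_cases hk0 : k = 0
      · exact ⟨[], w, rfl, by simp [hk0], by simp [hk0]⟩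
      · obtain ⟨u, v, rfl, h1, h2⟩ := ih (k - 1) (by omega) (by omega)
        refine ⟨1 :: u, v, rfl, ?_, ?_⟩
        · rw [disp_cons, dl1]
          omega
        · rw [mn_cons, dl1]
          omega
    · intro h
      rw [mn_cons, dl2] at h
      obtain ⟨u, v, rfl, h1, h2⟩ := ih k hk (by omega)
      refine ⟨2 :: u, v, rfl, ?_, ?_⟩
      · rw [disp_cons, dl2]
        omega
      · rw [mn_cons, dl2]
        omega

/-- first passage above `k` -/
theorem fpu (w : List (Fin 3)) (k : ℤ) (hk : 0 ≤ k) (h : k < mx w) :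
    ∃ u v, w = u ++ 0 :: v ∧ disp u = k ∧ mx u ≤ k := by
  induction w generalizing k with
  | nil =>
    rw [mx_nil] at h
    omega
  | cons x w ih =>
    revert x
    refine fin3_cases ?_ ?_ ?_
    · intro h
      rw [mx_cons, dl0] at h
      by_cases hk0 : k = 0
      · exact ⟨[], w, rfl, by simp [hk0], by simp [hk0]⟩
      · obtain ⟨u, v, rfl, h1, h2⟩ := ih (k - 1) (by omega) (by omega)
        refine ⟨0 :: u, v, rfl, ?_, ?_⟩
        · rw [disp_cons, dl0]
          omega
        · rw [mx_cons, dl0]
          omega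
    · intro h
      rw [mx_cons, dl1] at h
      obtain ⟨u, v, rfl, h1, h2⟩ := ih (k + 1) (by omega) (by omega)
      refine ⟨1 :: u, v, rfl, ?_, ?_⟩
      · rw [disp_cons, dl1]
        omega
      · rw [mx_cons, dl1]
        omega
    · intro h
      rw [mx_cons, dl2] at h
      obtain ⟨u, v, rfl, h1, h2⟩ := ih k hk (by omega)
      refine ⟨2 :: u, v, rfl, ?_, ?_⟩
      · rw [disp_cons, dl2]
        omega
      · rw [mx_cons, dl2]
        omega

/-- last passage from above -/
theorem lpd (w : List (Fin 3)) (h : disp w < 0) :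
    ∃ u v, w = u ++ 1 :: v ∧ disp v = 0 ∧ mx v ≤ 0 := by
  obtain ⟨u, v, huv, h1, h2⟩ := fpd w.reverse 0 le_rfl (by
    have := mn_le_disp w.reverse
    rw [disp_reverse] at this
    omega)
  refine ⟨v.reverse, u.reverse, ?_, ?_, ?_⟩
  · have := congrArg List.reverse huv
    rw [List.reverse_reverse] at this
    rw [this]
    simp
  · rw [disp_reverse]
    simpa using h1
  · rw [mx_reverse]
    omega

/-- last passage from below -/
theorem lpu (w : List (Fin 3)) (h : 0 < disp w) :
    ∃ u v, w = u ++ 0 :: v ∧ disp v = 0 ∧ 0 ≤ mn v := by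
  obtain ⟨u, v, huv, h1, h2⟩ := fpu w.reverse 0 le_rfl (by
    have := disp_le_mx w.reverse
    rw [disp_reverse] at this
    omega)
  refine ⟨v.reverse, u.reverse, ?_, ?_, ?_⟩
  · have := congrArg List.reverse huv
    rw [List.reverse_reverse] at this
    rw [this]
    simp
  · rw [disp_reverse]
    simpa using h1
  · rw [mn_reverse]
    omega

theorem comp_E (n : ℕ) : ∀ w : List (Fin 3), w.length < n → disp w = 0 → Y .E w := by
  induction n with
  | zero => intro w h; omega
  | succ n ih =>
    intro w hn h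
    cases w with
    | nil => exact y_rule (β := []) (by simp [rulesL]) Yd.nil
    | cons x w =>
      rw [List.length_cons] at hn
      revert x
      refine fin3_cases ?_ ?_ ?_
      · intro h
        rw [disp_cons, dl0] at h
        obtain ⟨u, v, rfl, h1, h2⟩ := fpd w 0 le_rfl (by have := mn_le_disp w; omega)
        rw [List.length_append, List.length_cons] at hn
        rw [disp_append, disp_cons, dl1] at h
        exact y_rule (β := [tm 0, nt .E, tm 1, nt .E]) (by simp [rulesL])
          (y_tm (y_nt (ih u (by omega) (by omega)) (y_tm (ih v (by omega) (by omega)))))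
      · intro h
        rw [disp_cons, dl1] at h
        obtain ⟨u, v, rfl, h1, h2⟩ := fpu w 0 le_rfl (by have := disp_le_mx w; omega)
        rw [List.length_append, List.length_cons] at hn
        rw [disp_append, disp_cons, dl0] at h
        exact y_rule (β := [tm 1, nt .E, tm 0, nt .E]) (by simp [rulesL])
          (y_tm (y_nt (ih u (by omega) (by omega)) (y_tm (ih v (by omega) (by omega)))))
      · intro h
        rw [disp_cons, dl2] at h
        exact y_rule (β := [tm 2, nt .E]) (by simp [rulesL])
          (y_tm (ih w (by omega) (by omega)))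

theorem comp_P (n : ℕ) : ∀ w : List (Fin 3), w.length < n → 0 < disp w → Y .P w := by
  induction n with
  | zero => intro w h; omega
  | succ n ih =>
    intro w hn h
    obtain ⟨u, v, rfl, h1, h2⟩ := fpu w 0 le_rfl (by have := disp_le_mx w; omega)
    rw [List.length_append, List.length_cons] at hn
    rw [disp_append, disp_cons, dl0] at h
    by_cases hv : disp v = 0
    · exact y_rule (β := [nt .E, tm 0, nt .E]) (by simp [rulesL])
        (y_nt (comp_E _ u (Nat.lt_succ_self _) h1)
          (y_tm (comp_E _ v (Nat.lt_succ_self _) hv)))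
    · exact y_rule (β := [nt .E, tm 0, nt .P]) (by simp [rulesL])
        (y_nt (comp_E _ u (Nat.lt_succ_self _) h1)
          (y_tm (ih v (by omega) (by omega))))

theorem comp_M (n : ℕ) : ∀ w : List (Fin 3), w.length < n → disp w < 0 → Y .M w := by
  induction n with
  | zero => intro w h; omega
  | succ n ih =>
    intro w hn h
    obtain ⟨u, v, rfl, h1, h2⟩ := fpd w 0 le_rfl (by have := mn_le_disp w; omega)
    rw [List.length_append, List.length_cons] at hn
    rw [disp_append, disp_cons, dl1] at h
    have h1' : disp u = 0 := by omega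
    by_cases hv : disp v = 0
    · exact y_rule (β := [nt .E, tm 1, nt .E]) (by simp [rulesL])
        (y_nt (comp_E _ u (Nat.lt_succ_self _) h1')
          (y_tm (comp_E _ v (Nat.lt_succ_self _) hv)))
    · exact y_rule (β := [nt .E, tm 1, nt .M]) (by simp [rulesL])
        (y_nt (comp_E _ u (Nat.lt_succ_self _) h1')
          (y_tm (ih v (by omega) (by omega))))

theorem comp_Bp (n : ℕ) : ∀ w : List (Fin 3), w.length < n → disp w = 0 → 0 ≤ mn w → Y .Bp w := by
  induction n with
  | zero => intro w h; omega
  | succ n ih =>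
    intro w hn h hm
    cases w with
    | nil => exact y_rule (β := []) (by simp [rulesL]) Yd.nil
    | cons x w =>
      rw [List.length_cons] at hn
      revert x
      refine fin3_cases ?_ ?_ ?_
      · intro h hm
        rw [disp_cons, dl0] at h
        obtain ⟨u, v, rfl, h1, h2⟩ := fpd w 0 le_rfl (by have := mn_le_disp w; omega)
        rw [List.length_append, List.length_cons] at hn
        rw [disp_append, disp_cons, dl1] at h
        rw [mn_cons, mn_append, mn_cons, dl0, dl1] at hm
        exact y_rule (β := [tm 0, nt .Bp, tm 1, nt .Bp]) (by simp [rulesL])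
          (y_tm (y_nt (ih u (by omega) (by omega) (by omega))
            (y_tm (ih v (by omega) (by omega) (by omega)))))
      · intro h hm
        rw [mn_cons, dl1] at hm
        have := mn_le w
        omega
      · intro h hm
        rw [disp_cons, dl2] at h
        rw [mn_cons, dl2] at hm
        exact y_rule (β := [tm 2, nt .Bp]) (by simp [rulesL])
          (y_tm (ih w (by omega) (by omega) (by omega)))

theorem comp_Bm (n : ℕ) : ∀ w : List (Fin 3), w.length < n → disp w = 0 → mx w ≤ 0 → Y .Bm w := by
  induction n with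
  | zero => intro w h; omega
  | succ n ih =>
    intro w hn h hm
    cases w with
    | nil => exact y_rule (β := []) (by simp [rulesL]) Yd.nil
    | cons x w =>
      rw [List.length_cons] at hn
      revert x
      refine fin3_cases ?_ ?_ ?_
      · intro h hm
        rw [mx_cons, dl0] at hm
        have := mx_ge w
        omega
      · intro h hm
        rw [disp_cons, dl1] at h
        obtain ⟨u, v, rfl, h1, h2⟩ := fpu w 0 le_rfl (by have := disp_le_mx w; omega)
        rw [List.length_append, List.length_cons] at hn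
        rw [disp_append, disp_cons, dl0] at h
        rw [mx_cons, mx_append, mx_cons, dl0, dl1] at hm
        exact y_rule (β := [tm 1, nt .Bm, tm 0, nt .Bm]) (by simp [rulesL])
          (y_tm (y_nt (ih u (by omega) (by omega) (by omega))
            (y_tm (ih v (by omega) (by omega) (by omega)))))
      · intro h hm
        rw [disp_cons, dl2] at h
        rw [mx_cons, dl2] at hm
        exact y_rule (β := [tm 2, nt .Bm]) (by simp [rulesL])
          (y_tm (ih w (by omega) (by omega) (by omega)))

theorem comp_Z (n : ℕ) : ∀ w : List (Fin 3), w.length < n → disp w = 0 →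
    (cnt w 0 = 0 → Y .Ze w) ∧ (cnt w 0 ≠ 0 → Y .Zo w) := by
  induction n with
  | zero => intro w h; omega
  | succ n ih =>
    intro w hn h
    cases w with
    | nil =>
      exact ⟨fun _ => y_rule (β := []) (by simp [rulesL]) Yd.nil, fun h => absurd rfl h⟩
    | cons x w =>
      rw [List.length_cons] at hn
      revert x
      refine fin3_cases ?_ ?_ ?_
      · intro h
        rw [disp_cons, dl0] at h
        obtain ⟨u, v, rfl, h1, h2⟩ := fpd w 0 le_rfl (by have := mn_le_disp w; omega)
        rw [List.length_append, List.length_cons] at hn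
        rw [disp_append, disp_cons, dl1] at h
        have e : cnt (0 :: (u ++ 1 :: v)) 0 = cnt v 0 := by
          rw [cnt_cons0, cnt_append, cnt_lt u _ (by omega), cnt_cons1, h1]
          simp
        rw [e]
        obtain ⟨i1, i2⟩ := ih v (by omega) (by omega)
        have hu : Y .Bp u := comp_Bp _ u (Nat.lt_succ_self _) (by omega) (by omega)
        exact ⟨fun hc => y_rule (β := [tm 0, nt .Bp, tm 1, nt .Ze]) (by simp [rulesL])
          (y_tm (y_nt hu (y_tm (i1 hc)))),
          fun hc => y_rule (β := [tm 0, nt .Bp, tm 1, nt .Zo]) (by simp [rulesL])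
          (y_tm (y_nt hu (y_tm (i2 hc))))⟩
      · intro h
        rw [disp_cons, dl1] at h
        obtain ⟨u, v, rfl, h1, h2⟩ := fpu w 0 le_rfl (by have := disp_le_mx w; omega)
        rw [List.length_append, List.length_cons] at hn
        rw [disp_append, disp_cons, dl0] at h
        have e : cnt (1 :: (u ++ 0 :: v)) 0 = cnt v 0 := by
          rw [cnt_cons1, cnt_append, cnt_gt u _ (by omega), cnt_cons0, h1]
          simp
        rw [e]
        obtain ⟨i1, i2⟩ := ih v (by omega) (by omega)
        have hu : Y .Bm u := comp_Bm _ u (Nat.lt_succ_self _) (by omega) (by omega)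
        exact ⟨fun hc => y_rule (β := [tm 1, nt .Bm, tm 0, nt .Ze]) (by simp [rulesL])
          (y_tm (y_nt hu (y_tm (i1 hc)))),
          fun hc => y_rule (β := [tm 1, nt .Bm, tm 0, nt .Zo]) (by simp [rulesL])
          (y_tm (y_nt hu (y_tm (i2 hc))))⟩
      · intro h
        rw [disp_cons, dl2] at h
        obtain ⟨i1, i2⟩ := ih w (by omega) (by omega)
        rw [cnt_cons2, if_pos rfl]
        constructor
        · intro hc
          refine y_rule (β := [tm 2, nt .Zo]) (by simp [rulesL]) (y_tm (i2 ?_))
          intro h0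
          rw [h0] at hc
          exact absurd hc (by decide)
        · intro hc
          refine y_rule (β := [tm 2, nt .Ze]) (by simp [rulesL]) (y_tm (i1 ?_))
          by_contra h0
          rw [(zmod2 _).1 h0] at hc
          exact hc (by decide)

theorem comp_Wp (n : ℕ) : ∀ w : List (Fin 3), w.length < n → disp w = 0 →
    (∃ z, 0 ≤ z ∧ cnt w z ≠ 0) → Y .Wp w := by
  induction n with
  | zero => intro w h; omega
  | succ n ih =>
    rintro w hn h ⟨z, hz, hc⟩
    by_cases hz0 : z = 0
    · rw [hz0] at hc
      have h3 : Y .Zo w := (comp_Z _ w (Nat.lt_succ_self _) h).2 hc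
      exact y_rule (β := [nt .Zo]) (by simp [rulesL]) h3
    · have hm : 0 < mx w := by
        by_contra hm
        exact hc (cnt_gt w z (by omega))
      obtain ⟨u, v, rfl, h1, h2⟩ := fpu w 0 le_rfl hm
      rw [disp_append, disp_cons, dl0] at h
      obtain ⟨x, y, rfl, h3, h4⟩ := lpd v (by omega)
      rw [disp_append, disp_cons, dl1] at h
      rw [List.length_append, List.length_cons, List.length_append, List.length_cons] at hn
      rw [cnt_append, cnt_gt u _ (by omega), cnt_cons0, cnt_append, cnt_cons1,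
        cnt_gt y _ (by omega), zero_add, add_zero] at hc
      have hx : Y .Wp x := ih x (by omega) (by omega) ⟨_, by omega, hc⟩
      have hu : Y .Bm u := comp_Bm _ u (Nat.lt_succ_self _) (by omega) (by omega)
      have hy : Y .Bm y := comp_Bm _ y (Nat.lt_succ_self _) (by omega) (by omega)
      exact y_rule (β := [nt .Bm, tm 0, nt .Wp, tm 1, nt .Bm]) (by simp [rulesL])
        (y_nt hu (y_tm (y_nt hx (y_tm hy))))

theorem comp_Wm (n : ℕ) : ∀ w : List (Fin 3), w.length < n → disp w = 0 →
    (∃ z, z ≤ 0 ∧ cnt w z ≠ 0) → Y .Wm w := by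
  induction n with
  | zero => intro w h; omega
  | succ n ih =>
    rintro w hn h ⟨z, hz, hc⟩
    by_cases hz0 : z = 0
    · rw [hz0] at hc
      have h3 : Y .Zo w := (comp_Z _ w (Nat.lt_succ_self _) h).2 hc
      exact y_rule (β := [nt .Zo]) (by simp [rulesL]) h3
    · have hm : mn w < 0 := by
        by_contra hm
        exact hc (cnt_lt w z (by omega))
      obtain ⟨u, v, rfl, h1, h2⟩ := fpd w 0 le_rfl hm
      rw [disp_append, disp_cons, dl1] at h
      obtain ⟨x, y, rfl, h3, h4⟩ := lpu v (by omega)
      rw [disp_append, disp_cons, dl0] at h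
      rw [List.length_append, List.length_cons, List.length_append, List.length_cons] at hn
      rw [cnt_append, cnt_lt u _ (by omega), cnt_cons1, cnt_append, cnt_cons0,
        cnt_lt y _ (by omega), zero_add, add_zero] at hc
      have hx : Y .Wm x := ih x (by omega) (by omega) ⟨_, by omega, hc⟩
      have hu : Y .Bp u := comp_Bp _ u (Nat.lt_succ_self _) (by omega) (by omega)
      have hy : Y .Bp y := comp_Bp _ y (Nat.lt_succ_self _) (by omega) (by omega)
      exact y_rule (β := [nt .Bp, tm 1, nt .Wm, tm 0, nt .Bp]) (by simp [rulesL])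
        (y_nt hu (y_tm (y_nt hx (y_tm hy))))

/-- **M4b** -/
theorem M4b_holds : TargetM4b := by
  intro A w h
  have hl := Nat.lt_succ_self w.length
  cases A with
  | E => exact comp_E _ w hl h
  | P => exact comp_P _ w hl h
  | M => exact comp_M _ w hl h
  | Bp => rw [sem_Bp] at h; exact comp_Bp _ w hl h.1 h.2
  | Bm => rw [sem_Bm] at h; exact comp_Bm _ w hl h.1 h.2
  | Ze => exact (comp_Z _ w hl h.1).1 h.2
  | Zo => exact (comp_Z _ w hl h.1).2 h.2
  | Wp => exact comp_Wp _ w hl h.1 h.2
  | Wm => exact comp_Wm _ w hl h.1 h.2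
  | S =>
    rcases lt_trichotomy (disp w) 0 with hd | hd | hd
    · exact y_rule (β := [nt .M]) (by simp [rulesL]) (comp_M _ w hl hd)
    · obtain ⟨z, hz⟩ : ∃ z, cnt w z ≠ 0 := by
        rcases h with h | h
        · exact absurd hd h
        · exact h
      rcases le_total 0 z with h0 | h0
      · exact y_rule (β := [nt .Wp]) (by simp [rulesL]) (comp_Wp _ w hl hd ⟨z, h0, hz⟩)
      · exact y_rule (β := [nt .Wm]) (by simp [rulesL]) (comp_Wm _ w hl hd ⟨z, h0, hz⟩)
    · exact y_rule (β := [nt .P]) (by simp [rulesL]) (comp_P _ w hl hd)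

/-! ## evaluation -/

theorem eval_word (w : List (Fin 3)) :
    (((w.map (![tL, tL⁻¹, aL] : Fin 3 → L)).prod : L) : LW).pos = disp w ∧
    ∀ z, (((w.map (![tL, tL⁻¹, aL] : Fin 3 → L)).prod : L) : LW).lamp z = cnt w z := by
  induction w with
  | nil => exact ⟨rfl, fun _ => rfl⟩
  | cons x w ih =>
    obtain ⟨i1, i2⟩ := ih
    rw [List.map_cons, List.prod_cons]
    revert x
    refine fin3_cases ?_ ?_ ?_
    · constructor
      · rw [Subgroup.coe_mul, LW.mul_pos', i1, disp_cons]
        rfl
      · intro z
        rw [Subgroup.coe_mul, LW.mul_lamp, cnt_cons0, i2]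
        change (0 : ZMod 2) + cnt w (z - 1) = _
        rw [zero_add]
    · constructor
      · rw [Subgroup.coe_mul, LW.mul_pos', i1, disp_cons]
        rfl
      · intro z
        rw [Subgroup.coe_mul, LW.mul_lamp, cnt_cons1, i2]
        change (-0 : ZMod 2) + cnt w (z - -1) = _
        rw [neg_zero, zero_add, sub_neg_eq_add]
    · constructor
      · rw [Subgroup.coe_mul, LW.mul_pos', i1, disp_cons]
        rfl
      · intro z
        rw [Subgroup.coe_mul, LW.mul_lamp, cnt_cons2, i2]
        change (if z = 0 then (1 : ZMod 2) else 0) + cnt w (z - 0) = _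
        rw [sub_zero]

theorem aL_inv : aL⁻¹ = aL := by
  apply Subtype.ext
  apply LW.ext
  · funext z
    change -(if z + 0 = 0 then (1 : ZMod 2) else 0) = if z = 0 then 1 else 0
    rw [add_zero]
    split_ifs <;> decide
  · rfl

theorem closure_L : Submonoid.closure (Set.range (![tL, tL⁻¹, aL] : Fin 3 → L)) = ⊤ := by
  have h1 : Subgroup.closure ({tL, aL} : Set L) = ⊤ := by
    have := Subgroup.closure_closure_coe_preimage (k := ({LW.t, LW.a} : Set LW))
    rw [← this]
    congr 1
    ext x
    simp only [Set.mem_insert_iff, Set.mem_singleton_iff, Set.mem_preimage]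
    constructor
    · rintro (rfl | rfl)
      · left; rfl
      · right; rfl
    · rintro (h | h)
      · left; exact Subtype.ext h
      · right; exact Subtype.ext h
  have h2 : (Subgroup.closure ({tL, aL} : Set L)).toSubmonoid = ⊤ := by
    rw [h1]
    rfl
  rw [Subgroup.closure_toSubmonoid] at h2
  rw [eq_top_iff, ← h2, Submonoid.closure_le]
  intro x hx
  apply Submonoid.subset_closure
  rcases hx with (rfl | rfl) | hx
  · exact ⟨0, rfl⟩
  · exact ⟨2, rfl⟩
  · rw [Set.mem_inv] at hx
    rcases hx with hx | hx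
    · refine ⟨1, ?_⟩
      change tL⁻¹ = x
      rw [← hx, inv_inv]
    · refine ⟨2, ?_⟩
      have hx' : x⁻¹ = aL := hx
      change aL = x
      rw [← aL_inv, ← hx', inv_inv]

/-- **M4c** -/
theorem M4c_holds : TargetM4c := by
  refine ⟨closure_L, fun w => ?_⟩
  obtain ⟨h1, h2⟩ := eval_word w
  rw [← not_iff_not]
  push Not
  constructor
  · intro h
    rw [h] at h1 h2
    exact ⟨h1.symm, fun z => (h2 z).symm⟩
  · rintro ⟨h3, h4⟩
    apply Subtype.ext
    apply LW.ext
    · funext z
      rw [h2, h4]
      rfl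
    · rw [h1, h3]
      rfl

/-- **M4 from M2a, M4a, M4b** -/
theorem M4_of : TargetM2a → TargetM4a → TargetM4b → TargetM4 := by
  intro h2 ha hb
  refine ⟨3, ![tL, tL⁻¹, aL], closure_L, gL, ?_⟩
  ext w
  have e1 : w ∈ gL.language ↔ Yd gL [Symbol.nonterminal gL.initial] w := by
    rw [h2]
    rfl
  rw [e1]
  constructor
  · intro h
    exact (M4c_holds.2 w).2 (ha .S w h)
  · intro h
    exact hb .S w ((M4c_holds.2 w).1 h)

end Pool.Agent.H42.CF
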