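import Pool.Agent.H95.CF.Targets
import Pool.Agent.H16.CN.CG

/-!
MP_347b49_nt, board cfm_modules, row PSGJ: sums over the classes and sums over the ideals.
-/

set_option autoImplicit false

open NumberField Module MeasureTheory Set Filter
open scoped nonZeroDivisors Real

namespace Pool.Agent.H42.CF

open Pool.Agent.H31.CN Pool.Agent.H95.CF

theorem norm_char {G : Type} [CommGroup G] [Fintype G] (φ : G →* ℂˣ) (g : G) :
    ‖((φ g : ℂˣ) : ℂ)‖ = 1 := by
  have h1 : (((φ g : ℂˣ) : ℂ)) ^ Fintype.card G = 1 := by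
    rw [← Units.val_pow_eq_pow_val, ← map_pow, pow_card_eq_one, map_one, Units.val_one]
  exact Complex.norm_eq_one_of_pow_eq_one h1 Fintype.card_ne_zero

open Classical in
theorem pf_SGJ (hPRN : T_PRN) (hNCU : T_NCU) : T_SGJ := by
  intro D K _ _ σ Q I α β b f G _ _ cl C V φ w a hD hfin hdis hFB hf hRG hRV hprim hsum ha
  have hUn : ∀ c u, u ≠ 0 → (Pr K f (b c u : Ideal (𝓞 K)) ↔ Un f (Q c) u) := by
    intro c u hu
    rw [hPRN K f _ (nonZeroDivisors.coe_ne_zero (b c u))]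
    unfold Un
    rw [← hFB.nrm c u hu, Nat.isCoprime_iff_coprime]
  let Y : ClassGroup (𝓞 K) → ℤ × ℤ → ℂ := fun c u =>
    if u ≠ 0 ∧ Un f (Q c) u then ((φ (cl (b c u)) : ℂˣ) : ℂ) *
        w (Ideal.absNorm (b c u : Ideal (𝓞 K))) else 0
  have hY : ∀ c, Summable (Y c) := by
    intro c
    refine Summable.of_norm_bounded (hsum c).norm fun u => ?_
    show ‖if u ≠ 0 ∧ Un f (Q c) u then ((φ (cl (b c u)) : ℂˣ) : ℂ) *
        w (Ideal.absNorm (b c u : Ideal (𝓞 K))) else 0‖ ≤ _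
    by_cases h : u ≠ 0 ∧ Un f (Q c) u
    · rw [if_pos h, if_neg h.1, norm_mul, norm_char, one_mul]
    · rw [if_neg h, norm_zero]
      exact norm_nonneg _
  have h2 : HasSum (fun J : (Ideal (𝓞 K))⁰ => (if Pr K f J then ((φ (cl J) : ℂˣ) : ℂ) else 0) *
      w (Ideal.absNorm (J : Ideal (𝓞 K)))) (∑ c, (∑' u : ℤ × ℤ, Y c u) / 2) := by
    have h3 := Pool.Agent.H16.CN.hasSum_all (fun J : (Ideal (𝓞 K))⁰ => ClassGroup.mk0 J) b
      (fun c v hv => hFB.cls c v hv) (fun c J hJ => by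
        obtain ⟨v, hv, hv2⟩ := hFB.sur J
        rw [hJ] at hv2
        exact ⟨v, hv, hv2⟩)
      (fun c v v' hv hv' => hFB.eqv c v v' hv hv') (fun _ => 1)
      (fun J : (Ideal (𝓞 K))⁰ => (if Pr K f J then ((φ (cl J) : ℂˣ) : ℂ) else 0) *
        w (Ideal.absNorm (J : Ideal (𝓞 K)))) (fun c => ∑' u : ℤ × ℤ, Y c u) (by
        intro c
        refine (hY c).hasSum.congr_fun fun u => ?_
        show (if u = 0 then 0 else
          (if Pr K f (b c u : Ideal (𝓞 K)) then ((φ (cl (b c u)) : ℂˣ) : ℂ) else 0) *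
          w (Ideal.absNorm (b c u : Ideal (𝓞 K)))) = if u ≠ 0 ∧ Un f (Q c) u then
            ((φ (cl (b c u)) : ℂˣ) : ℂ) * w (Ideal.absNorm (b c u : Ideal (𝓞 K))) else 0
        by_cases hu : u = 0
        · rw [if_pos hu, if_neg (fun h => h.1 hu)]
        · rw [if_neg hu]
          by_cases h : Un f (Q c) u
          · rw [if_pos ((hUn c u hu).2 h), if_pos ⟨hu, h⟩]
          · rw [if_neg (fun h' => h ((hUn c u hu).1 h')), if_neg (fun h' => h h'.2), zero_mul])
    simp only [one_mul] at h3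
    exact h3
  refine ⟨?_, h2⟩
  have h4 : HasSum (fun u : ℤ × ℤ => ∑ g, ((φ g : ℂˣ) : ℂ) *
      (if u ≠ 0 ∧ (f : ℤ) ∣ dt (V g) u then
        w (Ideal.absNorm (b (C g) u : Ideal (𝓞 K))) else 0)) (∑ g, ((φ g : ℂˣ) : ℂ) * a g) :=
    hasSum_sum fun g _ => (ha g).mul_left _
  have h5 : HasSum (fun u : ℤ × ℤ => ∑ c, Y c u) (∑ c, ∑' u : ℤ × ℤ, Y c u) :=
    hasSum_sum fun c _ => (hY c).hasSum
  have h6 : ∀ u : ℤ × ℤ, ∑ c, Y c u = ∑ g, ((φ g : ℂˣ) : ℂ) *
      (if u ≠ 0 ∧ (f : ℤ) ∣ dt (V g) u then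
        w (Ideal.absNorm (b (C g) u : Ideal (𝓞 K))) else 0) := by
    intro u
    by_cases hu : u = 0
    · rw [Finset.sum_eq_zero, Finset.sum_eq_zero]
      · intro g _
        rw [if_neg (fun h => h.1 hu), mul_zero]
      · intro c _
        exact if_neg (fun h => h.1 hu)
    · have h7 : ∀ c, Y c u = ∑ g, (if C g = c then ((φ g : ℂˣ) : ℂ) *
          (if u ≠ 0 ∧ (f : ℤ) ∣ dt (V g) u then
            w (Ideal.absNorm (b (C g) u : Ideal (𝓞 K))) else 0) else 0) := by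
        intro c
        have h8 : Y c u = (if Un f (Q c) u then ((φ (cl (b c u)) : ℂˣ) : ℂ) else 0) *
            w (Ideal.absNorm (b c u : Ideal (𝓞 K))) := by
          show (if u ≠ 0 ∧ Un f (Q c) u then ((φ (cl (b c u)) : ℂˣ) : ℂ) *
            w (Ideal.absNorm (b c u : Ideal (𝓞 K))) else 0) = _
          by_cases h : Un f (Q c) u
          · rw [if_pos ⟨hu, h⟩, if_pos h]
          · rw [if_neg (fun h' => h h'.2), if_neg h, zero_mul]
        rw [h8, ← hNCU D K σ Q I α β b f G cl C V φ hD hfin hdis hFB hf hRG hRV hprim c u hu,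
          Finset.sum_mul]
        refine Finset.sum_congr rfl fun g _ => ?_
        by_cases hg : C g = c
        · rw [if_pos hg]
          by_cases hd : (f : ℤ) ∣ dt (V g) u
          · rw [if_pos ⟨hg, hd⟩, if_pos ⟨hu, hd⟩, hg]
          · rw [if_neg (fun h => hd h.2), if_neg (fun h => hd h.2), zero_mul, mul_zero]
        · rw [if_neg hg, if_neg (fun h => hg h.1), zero_mul]
      rw [Finset.sum_congr rfl fun c _ => h7 c, Finset.sum_comm]
      refine Finset.sum_congr rfl fun g _ => ?_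
      rw [Finset.sum_eq_single (C g)]
      · rw [if_pos rfl]
      · intro c _ hc
        exact if_neg (Ne.symm hc)
      · intro h
        exact absurd (Finset.mem_univ _) h
  have h9 : ∑ c, ∑' u : ℤ × ℤ, Y c u = ∑ g, ((φ g : ℂˣ) : ℂ) * a g :=
    h5.unique (h4.congr_fun h6)
  have h10 : ∑ g, ((φ g : ℂˣ) : ℂ) * (a g / 2) = ∑ c, (∑' u : ℤ × ℤ, Y c u) / 2 := by
    rw [← Finset.sum_div, h9, Finset.sum_div]
    refine Finset.sum_congr rfl fun g _ => ?_
    rw [mul_div_assoc]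
  rw [h10]
  exact h2

end Pool.Agent.H42.CF
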